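import Pool.Agent.H560Bip.Graph

namespace Pool.Agent.Results.MP_9caa86_co.PolylineArea

open Pool.Agent.H560Bip

/-- For every `n ≥ 11` there is a bipartite DAG on `n` vertices (every vertex a source or a sink)
which has a straight-line upward planar grid drawing, and such that every upward planar poly-line
grid drawing of it has area at least `(n - 11)² / 16`: every axis-parallel rectangle containing the
drawing has at least this area. -/
theorem result : ∀ n : ℕ, 11 ≤ n → ∃ G : BipDAG, G.order = n ∧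
    (∃ D : Drawing G, D.Straight) ∧
    ∀ (D : Drawing G) (x₀ x₁ y₀ y₁ : ℝ), D.InBox x₀ x₁ y₀ y₁ →
      ((n : ℝ) - 11) ^ 2 / 16 ≤ (x₁ - x₀) * (y₁ - y₀) := by
  intro n hn
  refine ⟨Gr (n / 2) (n - n / 2), ?_, ⟨dr _ _, fun _ _ _ => rfl⟩, fun D x₀ x₁ y₀ y₁ h =>
    area_lower n hn D x₀ x₁ y₀ y₁ h⟩
  show n / 2 + (n - n / 2) = n
  omega

end Pool.Agent.Results.MP_9caa86_co.PolylineArea
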